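import Pool.Agent.H283.HT.Stm

/-!
# Top face lights (task W)
-/

set_option autoImplicit false

namespace Pool.Agent.H903.HTW

open Pool.Agent.H283.HT

/-- The points `(a p₀, 1)`, `|a| ≤ 1`, are in `K`. -/
theorem seg {K : Set P3} (hK : Body K) {p₀ : P2} (hp : ((p₀, (1 : ℝ)) : P3) ∈ K) {a : ℝ}
    (h1 : -1 ≤ a) (h2 : a ≤ 1) : ((a • p₀, (1 : ℝ)) : P3) ∈ K := by
  have h3 : ((-p₀, (1 : ℝ)) : P3) ∈ K := hK.sym _ hp
  have h4 := hK.conv hp h3 (show 0 ≤ (1 + a) / 2 by linarith) (show 0 ≤ (1 - a) / 2 by linarith)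
    (by ring)
  have h5 : ((1 + a) / 2) • ((p₀, (1 : ℝ)) : P3) + ((1 - a) / 2) • ((-p₀, (1 : ℝ)) : P3) =
      ((a • p₀, (1 : ℝ)) : P3) := by
    refine Prod.ext ?_ ?_
    · change ((1 + a) / 2) • p₀ + ((1 - a) / 2) • (-p₀) = a • p₀
      module
    · change ((1 + a) / 2) * 1 + ((1 - a) / 2) * 1 = 1
      ring
  rwa [h5] at h4

/-- The direction `(w, -1)` with `w = - σ p₀` lights `(c p₀, 1)`, `0 ≤ σ c ≤ 1`. -/
theorem light (hSH : S_SH) (hDI : S_DI) (hLIGHT : S_LIGHT) {K : Set P3} (hK : Body K) {p₀ : P2}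
    (hp : ((p₀, (1 : ℝ)) : P3) ∈ K) {c σ : ℝ} (hσ : σ = 1 ∨ σ = -1) (h1 : 0 ≤ σ * c)
    (h2 : σ * c ≤ 1) : (((-σ) • p₀, (-1 : ℝ)) : P3) ∈ C K (c • p₀, 1) := by
  have hQ := (hSH K hK).1
  have hpS : p₀ ∈ Sh K := ⟨_, hp, rfl⟩
  have hσ2 : σ * σ = 1 := by rcases hσ with h | h <;> rw [h] <;> norm_num
  have hc : -1 ≤ c ∧ c ≤ 1 := by
    rcases hσ with h | h
    · rw [h] at h1 h2
      constructor <;> linarith
    · rw [h] at h1 h2
      constructor <;> linarith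
  have hc2 : -(1 / 2) ≤ c - σ / 2 ∧ c - σ / 2 ≤ 1 / 2 := by
    rcases hσ with h | h
    · rw [h] at h1 h2 ⊢
      constructor <;> linarith
    · rw [h] at h1 h2 ⊢
      constructor <;> linarith
  have e1 : c • p₀ + (1 / 2 : ℝ) • ((-σ) • p₀) = (c - σ / 2) • p₀ := by module
  have e2 : c • p₀ + (σ * c) • ((-σ) • p₀) = (0 : P2) := by
    have : c • p₀ + (σ * c) • ((-σ) • p₀) = (c - σ * σ * c) • p₀ := by module
    rw [this, hσ2, one_mul, sub_self, zero_smul]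
  refine hLIGHT K hK (c • p₀) ((-σ) • p₀) 1 (-1) (1 / 2) (1 / 2) 1 (σ * c) (-1)
    (seg hK hp hc.1 hc.2) (by norm_num) ?_ (by norm_num) ?_ (by norm_num) h1 ?_ (by linarith)
  · rw [e1]
    refine (hDI _ hQ).1 p₀ hpS _ ?_
    rw [abs_lt]
    constructor <;> linarith [hc2.1, hc2.2]
  · rw [e1]
    exact seg hK hp (by linarith [hc2.1]) (by linarith [hc2.2])
  · rw [e2]
    exact hK.bot

theorem W_done (hSH : S_SH) (hDI : S_DI) (hLIGHT : S_LIGHT) (hW2 : S_W2) : S_W := by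
  intro K hK p₀ hp hint hex
  by_cases H : ∃ f : P2, ((f, (1 : ℝ)) : P3) ∈ K ∧ ∀ c : ℝ, f ≠ c • p₀
  · obtain ⟨f, hf, hfc⟩ := H
    exact hW2 K hK p₀ f hp hint hf hfc hex
  push Not at H
  refine ⟨p₀, 1, one_pos, fun p hpK => ?_⟩
  obtain ⟨c, hc⟩ := H p hpK
  have hc1 : |c| ≤ 1 := by
    by_contra hcon
    push Not at hcon
    apply hint
    have h1 := ((hDI _ (hSH K hK).1).1 p ⟨_, hpK, rfl⟩ c⁻¹
      (by rw [abs_inv]; exact inv_lt_one_of_one_lt₀ hcon))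
    have h2 : c⁻¹ • p = p₀ := by
      rw [hc, smul_smul, inv_mul_cancel₀, one_smul]
      intro h0
      rw [h0, abs_zero] at hcon
      linarith
    rwa [h2] at h1
  rw [abs_le] at hc1
  rw [hc]
  rcases le_total 0 c with h | h
  · right
    have := light hSH hDI hLIGHT hK hp (c := c) (σ := 1) (Or.inl rfl) (by linarith) (by linarith)
    rwa [neg_one_smul] at this
  · left
    have := light hSH hDI hLIGHT hK hp (c := c) (σ := -1) (Or.inr rfl) (by linarith) (by linarith)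
    rwa [neg_neg, one_smul] at this

end Pool.Agent.H903.HTW
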