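import Mathlib
import Pool.Agent.H576.RD.Stm

set_option autoImplicit false

/-!
# Empty diametral ball and two-point covering of a circle (S_T13)
-/

namespace Pool.Agent.H903

open Pool.Agent.H576.RD

namespace RDT13

theorem near (h1 : S_FINK) {r : ℝ} {X : Set E} (hD : Del r X) (U : Set E) (hU : U ⊆ X) (q : E)
    (h : ∀ ε : ℝ, 0 < ε → ∃ q' : E, ‖q' - q‖ ≤ ε ∧ ∃ u ∈ U, ‖u - q'‖ ≤ 1) :
    ∃ u ∈ U, ‖u - q‖ ≤ 1 := by
  by_contra hcon
  push Not at hcon
  have hfin : {u | u ∈ U ∧ ‖u - q‖ ≤ 2}.Finite := by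
    refine ((h1 r X q 2 hD).image fun v => q + v).subset ?_
    rintro u ⟨hu1, hu2⟩
    refine ⟨u - q, ⟨hu2, ?_⟩, add_sub_cancel q u⟩
    rw [add_sub_cancel]
    exact hU hu1
  have tri : ∀ u q' : E, ‖u - q‖ ≤ ‖u - q'‖ + ‖q' - q‖ := fun u q' => by
    have : u - q = (u - q') + (q' - q) := by abel
    rw [this]
    exact norm_add_le _ _
  rcases Set.eq_empty_or_nonempty {u | u ∈ U ∧ ‖u - q‖ ≤ 2} with he | hne
  · obtain ⟨q', hq', u, hu, hu'⟩ := h 1 one_pos
    have : u ∈ {u | u ∈ U ∧ ‖u - q‖ ≤ 2} := ⟨hu, by linarith [tri u q']⟩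
    rw [he] at this
    exact this
  · obtain ⟨u0, hu0, hmin⟩ := Set.exists_min_image _ (fun u => ‖u - q‖) hfin hne
    have h0 := hcon u0 hu0.1
    obtain ⟨q', hq', u, hu, hu'⟩ := h (min 1 ((‖u0 - q‖ - 1) / 2)) (lt_min one_pos (by linarith))
    have h2 := min_le_left (1 : ℝ) ((‖u0 - q‖ - 1) / 2)
    have h3 := min_le_right (1 : ℝ) ((‖u0 - q‖ - 1) / 2)
    have h4 := tri u q'
    have h5 : ‖u0 - q‖ ≤ ‖u - q‖ := hmin u ⟨hu, by linarith⟩
    linarith

/-- An orthonormal basis with given first vector. -/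
theorem exists_basis (n : E) (hn : ‖n‖ = 1) : ∃ b : OrthonormalBasis (Fin 3) ℝ E, b 0 = n := by
  have hv : Orthonormal ℝ (Set.domRestrict ({0} : Set (Fin 3)) fun _ : Fin 3 => n) := by
    constructor
    · intro i; exact hn
    · intro i j hij
      exact absurd (Subsingleton.elim i j) hij
  obtain ⟨b, hb⟩ := hv.exists_orthonormalBasis_extension_of_card_eq (by simp)
  exact ⟨b, hb 0 rfl⟩

theorem inner_b {b : OrthonormalBasis (Fin 3) ℝ E} {i j : Fin 3} (h : i ≠ j) :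
    inner ℝ (b i) (b j) = 0 := b.orthonormal.2 h

/-- unit vectors of the plane spanned by `b 1`, `b 2` -/
noncomputable def W (b : OrthonormalBasis (Fin 3) ℝ E) (φ : ℝ) : E :=
  Real.cos φ • b 1 + Real.sin φ • b 2

theorem W_norm (b : OrthonormalBasis (Fin 3) ℝ E) (φ : ℝ) : ‖W b φ‖ ^ 2 = 1 := by
  rw [W, norm_add_sq_real, norm_smul, norm_smul, b.orthonormal.1, b.orthonormal.1,
    inner_smul_left, inner_smul_right, inner_b (by decide)]
  simp only [mul_one, mul_zero, add_zero, Real.norm_eq_abs, sq_abs]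
  exact Real.cos_sq_add_sin_sq φ

theorem W_norm' (b : OrthonormalBasis (Fin 3) ℝ E) (φ : ℝ) : ‖W b φ‖ = 1 := by
  have h := W_norm b φ
  have h0 := norm_nonneg (W b φ)
  nlinarith

theorem W_inner (b : OrthonormalBasis (Fin 3) ℝ E) (φ : ℝ) : inner ℝ (b 0) (W b φ) = 0 := by
  rw [W, inner_add_right, inner_smul_right, inner_smul_right, inner_b (by decide),
    inner_b (by decide)]
  ring

theorem W_cont (b : OrthonormalBasis (Fin 3) ℝ E) : Continuous (W b) := by
  unfold W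
  exact (Real.continuous_cos.smul continuous_const).add
    (Real.continuous_sin.smul continuous_const)

theorem empty_ball {X : Set E} {ρ : ℝ} {x z : E} (hx : x ∈ X) (hz : z ∈ X)
    (hanti : ∀ x ∈ X, ∀ z ∈ X, ‖z - x‖ < ρ → (2 : ℝ) • x - z ∈ X)
    (hxz : ‖z - x‖ = ρ) (hnot : (2 : ℝ) • x - z ∉ X) (y : E) (hy : y ∈ X) :
    ρ / 2 ≤ ‖y - (1 / 2 : ℝ) • (x + z)‖ := by
  by_contra hcon
  push Not at hcon
  set m : E := (1 / 2 : ℝ) • (x + z) with hm
  have hmx : ‖m - x‖ = ρ / 2 := by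
    have : m - x = (1 / 2 : ℝ) • (z - x) := by rw [hm]; module
    rw [this, norm_smul, hxz]
    norm_num
    ring
  have hmz : ‖m - z‖ = ρ / 2 := by
    have : m - z = (-(1 / 2) : ℝ) • (z - x) := by rw [hm]; module
    rw [this, norm_smul, hxz]
    norm_num
    ring
  have hyx : ‖y - x‖ < ρ := by
    have : y - x = (y - m) + (m - x) := by abel
    rw [this]
    have := norm_add_le (y - m) (m - x)
    linarith
  have hyz : ‖y - z‖ < ρ := by
    have : y - z = (y - m) + (m - z) := by abel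
    rw [this]
    have := norm_add_le (y - m) (m - z)
    linarith
  have hp : (2 : ℝ) • y - z ∈ X := hanti y hy z hz (by rwa [norm_sub_rev])
  have hw : (2 : ℝ) • x - y ∈ X := hanti x hx y hy hyx
  have hq : (2 : ℝ) • x - ((2 : ℝ) • y - z) ∈ X := by
    refine hanti x hx _ hp ?_
    have : (2 : ℝ) • y - z - x = (2 : ℝ) • (y - m) := by rw [hm]; module
    rw [this, norm_smul]
    norm_num
    linarith
  have hfin := hanti _ hw _ hq (by
    have : (2 : ℝ) • x - ((2 : ℝ) • y - z) - ((2 : ℝ) • x - y) = z - y := by module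
    rw [this, norm_sub_rev]
    exact hyz)
  apply hnot
  have : (2 : ℝ) • ((2 : ℝ) • x - y) - ((2 : ℝ) • x - ((2 : ℝ) • y - z)) = (2 : ℝ) • x - z := by
    module
  rwa [this] at hfin

theorem final_numbers (s ρ t : ℝ) (hs : 1.595 ≤ s) (hsρ : s < ρ) (hρ : ρ ≤ 2)
    (ht : t ^ 2 = 1 - ρ ^ 2 / 4) (h : (s ^ 2 - 2) ^ 2 ≤ t ^ 2 * (4 - s ^ 2)) :
    ρ + 5 * s ≤ 9.96 := by
  rw [ht] at h
  have h1 : 2.544025 ≤ s ^ 2 := by nlinarith
  have h2 : s ^ 2 < ρ ^ 2 := by nlinarith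
  have h3 : ρ ^ 2 ≤ 4 := by nlinarith
  have h4 : s ^ 2 ≤ 8 / 3 := by
    have h5 : 4 * (s ^ 2 - 2) ^ 2 ≤ (4 - s ^ 2) ^ 2 := by nlinarith
    nlinarith
  have h6 : s ≤ 1.634 := by nlinarith
  have h7 : ρ ^ 2 ≤ 3.1877 := by
    by_contra hcon
    push Not at hcon
    have h8 : (s ^ 2 - 2) ^ 2 ≥ 0.544 ^ 2 := by nlinarith
    nlinarith
  have h9 : ρ ≤ 1.786 := by nlinarith
  linarith

end RDT13

open RDT13 in
theorem rd_t13 (h1 : S_FINK) : S_T13 := by
  intro r X s ρ hD hsep hs hsρ hρ2 hanti ⟨x, hx, z, hz, hxz, hnot⟩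
  have hρ0 : 0 < ρ := by linarith
  set m : E := (1 / 2 : ℝ) • (x + z) with hm
  have hempty : ∀ y ∈ X, ρ / 2 ≤ ‖y - m‖ := fun y hy =>
    empty_ball hx hz hanti hxz hnot y hy
  set n : E := (1 / ρ) • (z - x) with hn
  have hn1 : ‖n‖ = 1 := by
    rw [hn, norm_smul, hxz, Real.norm_eq_abs, abs_of_pos (by positivity)]
    field_simp
  obtain ⟨b, hb⟩ := exists_basis n hn1
  have hxm : x = m - (ρ / 2) • b 0 := by
    rw [hb, hn, smul_smul, show ρ / 2 * (1 / ρ) = 1 / 2 by field_simp, hm]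
    module
  have hzm : z = m + (ρ / 2) • b 0 := by
    rw [hb, hn, smul_smul, show ρ / 2 * (1 / ρ) = 1 / 2 by field_simp, hm]
    module
  have ht0 : 0 ≤ 1 - ρ ^ 2 / 4 := by nlinarith
  set t : ℝ := Real.sqrt (1 - ρ ^ 2 / 4) with ht
  have htsq : t ^ 2 = 1 - ρ ^ 2 / 4 := Real.sq_sqrt ht0
  have htnn : 0 ≤ t := Real.sqrt_nonneg _
  have ht1 : t ≤ 1 := by nlinarith [sq_nonneg ρ]
  -- distances from points near the circle
  have hdist : ∀ (c τ φ : ℝ), ‖c • b 0 + τ • W b φ‖ ^ 2 = c ^ 2 + τ ^ 2 := by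
    intro c τ φ
    rw [norm_add_sq_real, norm_smul, norm_smul, b.orthonormal.1, W_norm', inner_smul_left,
      inner_smul_right, W_inner]
    simp
  have hcirc : ∀ φ : ℝ, ∃ u ∈ X, u ≠ x ∧ u ≠ z ∧ ‖u - (m + t • W b φ)‖ ≤ 1 := by
    intro φ
    obtain ⟨u, hu, hu'⟩ := near h1 hD {u | u ∈ X ∧ u ≠ x ∧ u ≠ z} (fun u hu => hu.1)
      (m + t • W b φ) (by
        intro ε hε
        refine ⟨m + (t + ε) • W b φ, ?_, ?_⟩
        · have : m + (t + ε) • W b φ - (m + t • W b φ) = ε • W b φ := by module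
          rw [this, norm_smul, W_norm', mul_one, Real.norm_eq_abs, abs_of_pos hε]
        · obtain ⟨u, hu, hu'⟩ := hD.cov (m + (t + ε) • W b φ)
          have hbig : ∀ c : ℝ, c ^ 2 = ρ ^ 2 / 4 →
              1 < ‖(m + c • b 0) - (m + (t + ε) • W b φ)‖ := by
            intro c hc
            have e1 : (m + c • b 0) - (m + (t + ε) • W b φ) = c • b 0 + (-(t + ε)) • W b φ := by
              module
            have e2 := hdist c (-(t + ε)) φ
            rw [← e1] at e2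
            have e3 := norm_nonneg ((m + c • b 0) - (m + (t + ε) • W b φ))
            nlinarith
          refine ⟨u, ⟨hu, ?_, ?_⟩, hu'⟩
          · rintro rfl
            have := hbig (-(ρ / 2)) (by ring)
            rw [show m + (-(ρ / 2)) • b 0 = u by rw [hxm]; module] at this
            linarith
          · rintro rfl
            have := hbig (ρ / 2) (by ring)
            rw [← hzm] at this
            linarith)
    exact ⟨u, hu.1, hu.2.1, hu.2.2, hu'⟩
  have hsx : ∀ u ∈ X, u ≠ x → s ≤ ‖u - x‖ := fun u hu hne => hsep x hx u hu (Ne.symm hne)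
  have hsz : ∀ u ∈ X, u ≠ z → s ≤ ‖u - z‖ := fun u hu hne => hsep z hz u hu (Ne.symm hne)
  rcases htnn.lt_or_eq with htpos | htz
  swap
  · -- the case `t = 0`
    exfalso
    obtain ⟨u, hu, hux, huz, hu'⟩ := hcirc 0
    rw [← htz, zero_smul, add_zero] at hu'
    have hρ4 : ρ ^ 2 / 4 = 1 := by
      rw [← htz] at htsq
      linarith
    have e1 : ‖u - x‖ ^ 2 + ‖u - z‖ ^ 2 = 2 * (‖u - m‖ ^ 2 + ‖(ρ / 2) • b 0‖ ^ 2) := by
      have := parallelogram_law_with_norm ℝ (u - m) ((ρ / 2) • b 0)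
      rw [show u - m + (ρ / 2) • b 0 = u - x by rw [hxm]; module,
        show u - m - (ρ / 2) • b 0 = u - z by rw [hzm]; module] at this
      nlinarith
    have e2 : ‖(ρ / 2) • b 0‖ ^ 2 = 1 := by
      rw [norm_smul, b.orthonormal.1, mul_one, Real.norm_eq_abs, sq_abs]
      nlinarith
    have e3 := hsx u hu hux
    have e4 := hsz u hu huz
    have e5 := norm_nonneg (u - m)
    rw [e2] at e1
    nlinarith
  -- two points for one `φ`
  have htwo : ∃ φ : ℝ, ∃ u1 ∈ X, ∃ u2 ∈ X, u1 ≠ u2 ∧ u1 ≠ x ∧ u1 ≠ z ∧ u2 ≠ x ∧ u2 ≠ z ∧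
      ‖u1 - (m + t • W b φ)‖ ≤ 1 ∧ ‖u2 - (m + t • W b φ)‖ ≤ 1 := by
    by_contra hno
    push Not at hno
    obtain ⟨u0, hu0, hu0x, hu0z, hu0'⟩ := hcirc 0
    set A : E → Set ℝ := fun u => {φ | ‖u - (m + t • W b φ)‖ ≤ 1} with hA
    have hAcl : ∀ u, IsClosed (A u) := by
      intro u
      refine isClosed_le ?_ continuous_const
      exact (continuous_const.sub (continuous_const.add ((W_cont b).const_smul t))).norm
    set UF : Set E := {u | (u ∈ X ∧ u ≠ x ∧ u ≠ z ∧ u ≠ u0) ∧ ‖u - m‖ ≤ 2} with hUF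
    have hfin : UF.Finite := by
      refine ((h1 r X m 2 hD).image fun v => m + v).subset ?_
      rintro u ⟨⟨hu1, -⟩, hu2⟩
      refine ⟨u - m, ⟨hu2, ?_⟩, add_sub_cancel m u⟩
      rw [add_sub_cancel]
      exact hu1
    have hBcl : IsClosed (⋃ u ∈ UF, A u) := hfin.isClosed_biUnion fun u _ => hAcl u
    have hcover : (Set.univ : Set ℝ) ⊆ A u0 ∪ ⋃ u ∈ UF, A u := by
      intro φ _
      obtain ⟨u, hu, hux, huz, hu'⟩ := hcirc φ
      by_cases h : u = u0
      · left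
        rw [← h]
        exact hu'
      · right
        rw [Set.mem_iUnion₂]
        refine ⟨u, ⟨⟨hu, hux, huz, h⟩, ?_⟩, hu'⟩
        have e : u - m = (u - (m + t • W b φ)) + t • W b φ := by module
        rw [e]
        have e2 := norm_add_le (u - (m + t • W b φ)) (t • W b φ)
        rw [norm_smul, W_norm', mul_one, Real.norm_eq_abs, abs_of_nonneg htnn] at e2
        linarith
    have hA0 : ((Set.univ : Set ℝ) ∩ A u0).Nonempty := ⟨0, trivial, hu0'⟩
    by_cases hB : ((Set.univ : Set ℝ) ∩ ⋃ u ∈ UF, A u).Nonempty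
    · obtain ⟨φ, -, hφ1, hφ2⟩ := isPreconnected_closed_iff.1 isPreconnected_univ _ _
        (hAcl u0) hBcl hcover hA0 hB
      rw [Set.mem_iUnion₂] at hφ2
      obtain ⟨u, hu, hφ2⟩ := hφ2
      obtain ⟨⟨k1, k2, k3, k4⟩, -⟩ := hu
      have := hno φ u0 hu0 u k1 (Ne.symm k4) hu0x hu0z k2 k3 hφ1
      exact absurd hφ2 (not_le.2 this)
    · have hall : ∀ φ, ‖u0 - (m + t • W b φ)‖ ≤ 1 := by
        intro φ
        rcases hcover (Set.mem_univ φ) with h | h
        · exact h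
        · exact absurd ⟨φ, trivial, h⟩ hB
      -- `u0 - m` is orthogonal to the circle
      set d : E := u0 - m with hd
      have hsq : ∀ φ, ‖d‖ ^ 2 - 2 * (t * inner ℝ d (W b φ)) + t ^ 2 ≤ 1 := by
        intro φ
        have e1 : u0 - (m + t • W b φ) = d - t • W b φ := by rw [hd]; module
        have e2 := hall φ
        rw [e1] at e2
        have e3 : ‖d - t • W b φ‖ ^ 2 ≤ 1 := by
          have := norm_nonneg (d - t • W b φ)
          nlinarith
        rw [norm_sub_sq_real, norm_smul, W_norm', mul_one, Real.norm_eq_abs, sq_abs,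
          inner_smul_right] at e3
        exact e3
      have hW0 : W b 0 = b 1 := by simp [W]
      have hWpi : W b Real.pi = - b 1 := by simp [W]
      have hW2 : W b (Real.pi / 2) = b 2 := by simp [W]
      have hW3 : W b (-(Real.pi / 2)) = - b 2 := by simp [W]
      have s1 := hsq 0
      have s2 := hsq Real.pi
      have s3 := hsq (Real.pi / 2)
      have s4 := hsq (-(Real.pi / 2))
      rw [hW0] at s1
      rw [hWpi, inner_neg_right] at s2
      rw [hW2] at s3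
      rw [hW3, inner_neg_right] at s4
      have hd1 : ρ / 2 ≤ ‖d‖ := hempty u0 hu0
      have hdsq : ρ ^ 2 / 4 ≤ ‖d‖ ^ 2 := by nlinarith
      have hdsq' : ‖d‖ ^ 2 = ρ ^ 2 / 4 := by linarith
      have i1 : inner ℝ d (b 1) = 0 := by
        have a1 : t * inner ℝ d (b 1) = 0 := by linarith
        exact (mul_eq_zero.1 a1).resolve_left htpos.ne'
      have i2 : inner ℝ d (b 2) = 0 := by
        have a1 : t * inner ℝ d (b 2) = 0 := by linarith
        exact (mul_eq_zero.1 a1).resolve_left htpos.ne'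
      have hrep := b.sum_repr' d
      rw [Fin.sum_univ_three, real_inner_comm, real_inner_comm d (b 1), real_inner_comm d (b 2),
        i1, i2, zero_smul, zero_smul, add_zero, add_zero] at hrep
      set c : ℝ := inner ℝ d (b 0) with hc
      have hcsq : c ^ 2 = ρ ^ 2 / 4 := by
        rw [← hdsq', ← hrep, norm_smul, b.orthonormal.1, mul_one, Real.norm_eq_abs, sq_abs]
      have hc2 : (c - ρ / 2) * (c + ρ / 2) = 0 := by nlinarith
      rcases mul_eq_zero.1 hc2 with hc3 | hc3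
      · apply hu0z
        have : c = ρ / 2 := by linarith
        rw [this] at hrep
        rw [hzm, hrep, hd]
        abel
      · apply hu0x
        have : c = -(ρ / 2) := by linarith
        rw [this] at hrep
        rw [hxm, sub_eq_add_neg, ← neg_smul, hrep, hd]
        abel
  obtain ⟨φ, u1, hu1, u2, hu2, hne, k1, k2, k3, k4, k5, k6⟩ := htwo
  set q : E := m + t • W b φ with hq
  set p1 : E := u1 - q with hp1
  set p2 : E := u2 - q with hp2
  set x1 : E := x - q with hx1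
  set z1 : E := z - q with hz1
  have nx1 : ‖x1‖ ^ 2 = 1 := by
    have : x1 = (-(ρ / 2)) • b 0 + (-t) • W b φ := by rw [hx1, hq, hxm]; module
    rw [this, hdist]
    nlinarith
  have nz1 : ‖z1‖ ^ 2 = 1 := by
    have : z1 = (ρ / 2) • b 0 + (-t) • W b φ := by rw [hz1, hq, hzm]; module
    rw [this, hdist]
    nlinarith
  have hsum : x1 + z1 = (-(2 * t)) • W b φ := by
    rw [hx1, hz1, hq]
    nth_rewrite 1 [hxm]
    nth_rewrite 1 [hzm]
    module
  have nsum : ‖x1 + z1‖ ^ 2 = 4 * t ^ 2 := by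
    rw [hsum, norm_smul, W_norm', mul_one, Real.norm_eq_abs, sq_abs]
    ring
  have n1 : ‖p1‖ ^ 2 ≤ 1 := by have := norm_nonneg p1; nlinarith
  have n2 : ‖p2‖ ^ 2 ≤ 1 := by have := norm_nonneg p2; nlinarith
  have hs0 : 0 < s := by linarith
  have d1 : s ^ 2 ≤ ‖p1 - x1‖ ^ 2 := by
    rw [show p1 - x1 = u1 - x by rw [hp1, hx1]; abel]
    have := hsx u1 hu1 k1
    nlinarith
  have d2 : s ^ 2 ≤ ‖p1 - z1‖ ^ 2 := by
    rw [show p1 - z1 = u1 - z by rw [hp1, hz1]; abel]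
    have := hsz u1 hu1 k2
    nlinarith
  have d3 : s ^ 2 ≤ ‖p2 - x1‖ ^ 2 := by
    rw [show p2 - x1 = u2 - x by rw [hp2, hx1]; abel]
    have := hsx u2 hu2 k3
    nlinarith
  have d4 : s ^ 2 ≤ ‖p2 - z1‖ ^ 2 := by
    rw [show p2 - z1 = u2 - z by rw [hp2, hz1]; abel]
    have := hsz u2 hu2 k4
    nlinarith
  have d5 : s ^ 2 ≤ ‖p1 - p2‖ ^ 2 := by
    rw [show p1 - p2 = u1 - u2 by rw [hp1, hp2]; abel]
    have := hsep u2 hu2 u1 hu1 (Ne.symm hne)
    nlinarith
  rw [norm_sub_sq_real] at d1 d2 d3 d4 d5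
  have hWsq : ‖p1 + p2‖ ^ 2 ≤ 4 - s ^ 2 := by
    rw [norm_add_sq_real]
    linarith
  have hin : inner ℝ (x1 + z1) (p1 + p2) ≤ -(2 * (s ^ 2 - 2)) := by
    have e1 : inner ℝ x1 p1 = inner ℝ p1 x1 := real_inner_comm _ _
    have e2 : inner ℝ x1 p2 = inner ℝ p2 x1 := real_inner_comm _ _
    have e3 : inner ℝ z1 p1 = inner ℝ p1 z1 := real_inner_comm _ _
    have e4 : inner ℝ z1 p2 = inner ℝ p2 z1 := real_inner_comm _ _
    rw [inner_add_left, inner_add_right, inner_add_right, e1, e2, e3, e4]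
    linarith
  have hcs := abs_real_inner_le_norm (x1 + z1) (p1 + p2)
  have hδ : 0 < s ^ 2 - 2 := by nlinarith
  have hcs2 : (2 * (s ^ 2 - 2)) ^ 2 ≤ (‖x1 + z1‖ * ‖p1 + p2‖) ^ 2 := by
    have h3 : 2 * (s ^ 2 - 2) ≤ ‖x1 + z1‖ * ‖p1 + p2‖ := by
      have := neg_abs_le (inner ℝ (x1 + z1) (p1 + p2))
      linarith
    nlinarith
  rw [mul_pow (‖x1 + z1‖), nsum] at hcs2
  refine final_numbers s ρ t hs hsρ hρ2 htsq ?_
  have h4 : 4 * t ^ 2 * ‖p1 + p2‖ ^ 2 ≤ 4 * t ^ 2 * (4 - s ^ 2) :=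
    mul_le_mul_of_nonneg_left hWsq (by positivity)
  nlinarith

end Pool.Agent.H903
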