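import Mathlib
import Pool.Agent.H576.RD.Stm

set_option autoImplicit false

/-!
# Local criterion and tower bound (S_T2)
-/

namespace Pool.Agent.H903

open Pool.Agent.H576.RD

namespace RDT2

theorem crit_aux {X : Set E} {σ L : ℝ} (hL : 0 < L) (hσ : 0 ≤ σ) (hN : Nn X (σ + L))
    (hA : ∀ y ∈ X, Aut X y σ = Aut X y (σ + L)) {x y : E} (hy : y ∈ X) {g : LI}
    (hg : Eqv X x y (σ + L) g) {z : E}
    (hz : Relation.ReflTransGen (fun p q => q ∈ X ∧ ‖q - p‖ ≤ L) x z) :
    y + g (z - x) ∈ X ∧ Eqv X z (y + g (z - x)) (σ + L) g := by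
  induction hz with
  | refl => simpa using ⟨hy, hg⟩
  | @tail z z' _ hs ih =>
    obtain ⟨hz', hd⟩ := hs
    obtain ⟨ih1, ih2⟩ := ih
    have e1 : y + g (z - x) + g (z' - z) = y + g (z' - x) := by
      rw [add_assoc, ← map_add]
      congr 2
      abel
    have e2 : z + (z' - z) = z' := by abel
    have h1 : y + g (z' - x) ∈ X := by
      have := (ih2 (z' - z) (by linarith)).1 (by rwa [e2])
      rwa [e1] at this
    refine ⟨h1, ?_⟩
    have h2 : Eqv X z' (y + g (z' - x)) σ g := by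
      have := ih2.shift (σ := σ) (z' - z) (by linarith)
      rwa [e1, e2] at this
    obtain ⟨h, hh⟩ := hN z' hz' _ h1
    have h3 : h⁻¹ * g ∈ Aut X z' σ := by
      have hh' : Eqv X (y + g (z' - x)) z' σ h⁻¹ := (hh.mono (by linarith)).symm
      exact h2.trans hh'
    rw [hA z' hz'] at h3
    have h4 : Eqv X z' (y + g (z' - x)) (σ + L) (h * (h⁻¹ * g)) := Eqv.trans h3 hh
    rwa [mul_inv_cancel_left] at h4

theorem crit {X : Set E} {σ L : ℝ} (hL : 0 < L) (hσ : 0 ≤ σ) (hC : Conn X L)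
    (hN : Nn X (σ + L)) (hA : ∀ y ∈ X, Aut X y σ = Aut X y (σ + L)) : Reg X := by
  intro x hx y hy
  obtain ⟨g, hg⟩ := hN x hx y hy
  have hF : ∀ z ∈ X, y + g (z - x) ∈ X := fun z hz =>
    (crit_aux hL hσ hN hA hy hg (hC x hx z hz)).1
  have hG : ∀ z ∈ X, x + (g⁻¹ : LI) (z - y) ∈ X := fun z hz =>
    (crit_aux hL hσ hN hA hx hg.symm (hC y hy z hz)).1
  let F : E ≃ᵢ E := ((IsometryEquiv.addRight (-x)).trans g.toIsometryEquiv).trans
    (IsometryEquiv.addLeft y)
  have hFv : ∀ z, F z = y + g (z - x) := fun z => by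
    show y + g (z + -x) = _
    rw [sub_eq_add_neg]
  refine ⟨F, ?_, by rw [hFv]; simp⟩
  apply Set.Subset.antisymm
  · rintro _ ⟨z, hz, rfl⟩
    rw [hFv]
    exact hF z hz
  · intro w hw
    refine ⟨_, hG w hw, ?_⟩
    rw [hFv, add_sub_cancel_left]
    have : g ((g⁻¹ : LI) (w - y)) = w - y := LinearIsometryEquiv.apply_symm_apply g _
    rw [this]
    abel

theorem Om_mul {m n : ℕ} (hm : m ≠ 0) (hn : n ≠ 0) : Om (m * n) = Om m + Om n := by
  have := ArithmeticFunction.cardFactors_mul hm hn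
  simp only [ArithmeticFunction.cardFactors_apply] at this
  exact this

theorem Om_pos {m : ℕ} (hm : 2 ≤ m) : 1 ≤ Om m := by
  unfold Om
  have : m.primeFactorsList ≠ [] := by
    rw [Ne, Nat.primeFactorsList_eq_nil]
    omega
  exact List.length_pos_iff.2 this

theorem Om_sub {H K : Subgroup LI} (hf : Finite K) (hle : H ≤ K) (hne : H ≠ K) :
    Om (Nat.card H) + 1 ≤ Om (Nat.card K) := by
  have hK0 : 0 < Nat.card K := Nat.card_pos
  obtain ⟨m, hm⟩ := Subgroup.card_dvd_of_le hle
  have hH0 : Nat.card H ≠ 0 := by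
    intro h0
    rw [h0, zero_mul] at hm
    omega
  have hm0 : m ≠ 0 := by
    rintro rfl
    rw [mul_zero] at hm
    omega
  have hm1 : m ≠ 1 := by
    rintro rfl
    rw [mul_one] at hm
    apply hne
    apply Subgroup.eq_of_le_of_card_ge hle
    rw [hm]
  rw [hm, Om_mul hH0 hm0]
  have := Om_pos (m := m) (by omega)
  omega

end RDT2

theorem rd_t2 : S_T2 := by
  intro X x ρ L k hx hρ hL hC hN hfin hOm
  have hex : ∃ i, i < k ∧ Aut X x (ρ + i * L) = Aut X x (ρ + (i + 1 : ℕ) * L) := by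
    by_contra hcon
    push Not at hcon
    have hfi : ∀ i : ℕ, Finite (Aut X x (ρ + i * L)) := by
      intro i
      have hle : Aut X x (ρ + i * L) ≤ Aut X x ρ := Aut_anti (by
        have : (0 : ℝ) ≤ i * L := by positivity
        linarith)
      exact Set.Finite.subset (s := (Aut X x ρ : Set LI)) hfin hle
    have key : ∀ i : ℕ, i ≤ k → Om (Nat.card (Aut X x (ρ + i * L))) + i ≤
        Om (Nat.card (Aut X x ρ)) := by
      intro i
      induction i with
      | zero =>
        intro _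
        rw [Nat.cast_zero, zero_mul, add_zero, add_zero]
      | succ i ih =>
        intro hi
        have h1 := ih (by omega)
        have hle : Aut X x (ρ + (i + 1 : ℕ) * L) ≤ Aut X x (ρ + i * L) := Aut_anti (by
          push_cast
          nlinarith)
        have h2 := RDT2.Om_sub (hfi i) hle (fun h => hcon i (by omega) h.symm)
        omega
    have := key k le_rfl
    omega
  obtain ⟨i, hik, hi⟩ := hex
  have hσ : (0 : ℝ) ≤ ρ + i * L := by positivity
  have e1 : ρ + (i + 1 : ℕ) * L = (ρ + i * L) + L := by push_cast; ring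
  rw [e1] at hi
  have hle : (ρ + i * L) + L ≤ ρ + k * L := by
    have : (i : ℝ) + 1 ≤ k := by exact_mod_cast hik
    nlinarith
  have hN' : Nn X ((ρ + i * L) + L) := hN.mono hle
  refine RDT2.crit hL hσ hC hN' fun y hy => ?_
  obtain ⟨g, hg⟩ := hN' x hx y hy
  apply le_antisymm
  · intro h hh
    have hg' : Eqv X x y (ρ + i * L) g := hg.mono (by linarith)
    have h1 : g⁻¹ * (h * g) ∈ Aut X x (ρ + i * L) :=
      Eqv.trans (Eqv.trans hg' hh) hg'.symm
    rw [hi] at h1
    have h2 : Eqv X y y ((ρ + i * L) + L) (g * (g⁻¹ * (h * g)) * g⁻¹) := by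
      have := Eqv.trans hg.symm (Eqv.trans h1 hg)
      exact this
    have e2 : g * (g⁻¹ * (h * g)) * g⁻¹ = h := by group
    rw [e2] at h2
    exact h2
  · exact Aut_anti (by linarith)

end Pool.Agent.H903
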