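import Pool.Agent.H979.DE.Stm

/-!
# DE, task CIRC: circuits in connected graphs which are not 2-regular (helper903)
-/

set_option autoImplicit false

namespace Pool.Agent.H903

open Finset Pool.Agent.H41.Derrw Pool.Agent.H979.DE

theorem de_circ : S_CIRC := by
  intro V _ G _ hconn hx m u hu
  obtain ⟨x₀, hx₀⟩ := hx
  obtain ⟨hm, hinj, hadj⟩ := hu
  by_contra hcon
  push Not at hcon
  have hne : ∀ i : ZMod m, i + 1 ≠ i - 1 := by
    intro i h
    have h1 : ((2 : ℕ) : ZMod m) = 0 := by
      push_cast
      linear_combination h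
    rw [ZMod.natCast_eq_zero_iff] at h1
    exact absurd (Nat.le_of_dvd two_pos h1) (by omega)
  have heq : ∀ i, ({u (i + 1), u (i - 1)} : Finset V) = G.neighborFinset (u i) := by
    intro i
    apply eq_of_subset_of_card_le
    · intro y hy
      rw [SimpleGraph.mem_neighborFinset]
      rw [mem_insert, mem_singleton] at hy
      rcases hy with rfl | rfl
      · exact hadj i
      · have h1 := hadj (i - 1)
        rw [sub_add_cancel] at h1
        exact h1.symm
    · rw [card_pair (hinj.ne (hne i)), SimpleGraph.card_neighborFinset_eq_degree]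
      have := hcon i
      omega
  have hcl : ∀ x y, G.Adj x y → x ∈ Set.range u → y ∈ Set.range u := by
    rintro x y hxy ⟨i, rfl⟩
    rw [← SimpleGraph.mem_neighborFinset, ← heq i, mem_insert, mem_singleton] at hxy
    rcases hxy with h | h
    · exact ⟨i + 1, h.symm⟩
    · exact ⟨i - 1, h.symm⟩
  have hwalk : ∀ (x y : V), G.Walk x y → x ∈ Set.range u → y ∈ Set.range u := by
    intro x y p
    induction p with
    | nil => exact fun h => h
    | cons hxy _ ih => exact fun h => ih (hcl _ _ hxy h)
  obtain ⟨p⟩ := hconn.preconnected (u 0) x₀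
  obtain ⟨i, hi⟩ := hwalk _ _ p ⟨0, rfl⟩
  apply hx₀
  rw [← hi, ← SimpleGraph.card_neighborFinset_eq_degree, ← heq i, card_pair (hinj.ne (hne i))]

end Pool.Agent.H903
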